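import Pool.Agent.X328.GC.Curve3

/-!
# Gonality of the preimages of lines under a map of minimal degree: a counterexample

Over an algebraically closed field `k` of characteristic `2`, let `X` be the surface
`∑ x_i y_i ^ 2 = ∑ x_i ^ 2 y_i = 0` in `P² × P²` and `ψ : X → P²` the first projection. Then `X` is
smooth and irreducible, `ψ` has degree `2`, the degree of irrationality of `X` is `2` (so `ψ` has
minimal degree), and for a general line `L` the curve `C_L = ψ⁻¹(L)` is irreducible of gonality `1`.
-/

set_option autoImplicit false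

open MvPolynomial Pool.Agent.X328.GC

namespace Pool.Agent.Results.MP_83f7cc_ag.DegreeTwoNet

universe u v

theorem result (k : Type u) [Field k] [IsAlgClosed k] [CharP k 2] :
    -- `X` is smooth (the Jacobian matrix of its two equations has rank two at every point)
    (∀ q ∈ surf k 2, LinearIndependent k
      ![fun c => eval q (pderiv c (F k 2)), fun c => eval q (pderiv c (G k 2))]) ∧
    -- `X` is irreducible, and has a function field
    Irred (surf k 2) ∧
    (∃ (K : Type u) (_ : Field K) (_ : Algebra k K) (P : Coord → K),
      IsFunctionField (surf k 2) K P) ∧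
    -- the first projection is dominant of degree two, and this is the degree of irrationality
    (∀ (K : Type v) [Field K] [Algebra k K] (P : Coord → K), IsFunctionField (surf k 2) K P →
      AlgebraicIndependent k ![P (Sum.inl 1) / P (Sum.inl 0), P (Sum.inl 2) / P (Sum.inl 0)] ∧
      Module.finrank (IntermediateField.adjoin k {P (Sum.inl 1) / P (Sum.inl 0),
        P (Sum.inl 2) / P (Sum.inl 0)}) K = 2 ∧
      irr k K = 2) ∧
    -- the preimage of a general line is irreducible, and has gonality one
    ∃ H : MvPolynomial (Fin 3) k, H ≠ 0 ∧ (∃ n, H.IsHomogeneous n) ∧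
      ∀ l : Fin 3 → k, eval l H ≠ 0 →
        Irred (curve k 2 l) ∧
        (∃ (E : Type u) (_ : Field E) (_ : Algebra k E) (Q : Coord → E),
          IsFunctionField (curve k 2 l) E Q) ∧
        ∀ (E : Type v) [Field E] [Algebra k E] (Q : Coord → E),
          IsFunctionField (curve k 2 l) E Q → gonality k E = 1 := by
  haveI : Fact (Nat.Prime 2) := ⟨Nat.prime_two⟩
  refine ⟨fun q hq => smooth 2 q hq, surf_irred 2, surf_functionField 2, ?_,
    Hform k 2, Hform_ne, Hform_homog, ?_⟩
  · intro K _ _ P h
    exact ⟨indep 2 h, (surf_degree 2 h).2, le_antisymm (Nat.sInf_le (surf_hasMap 2 h))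
      (le_csInf ⟨2, surf_hasMap 2 h⟩ fun d hd => surf_two_le 2 h hd)⟩
  · intro l hl
    obtain ⟨A, B, hL⟩ := exists_lineData 2 hl
    refine ⟨curve_irred 2 hL, ?_, ?_⟩
    · obtain ⟨E, Q, hQ, _⟩ := curve_functionField 2 hL
      exact ⟨E, inferInstance, inferInstance, Q, hQ⟩
    · intro E _ _ Q h
      exact curve_gonality 2 hL h

end Pool.Agent.Results.MP_83f7cc_ag.DegreeTwoNet
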